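import Pool.Agent.helper55.VDI.SpecB1

set_option autoImplicit false

open scoped ContDiff Topology InnerProductSpace ComplexConjugate ENNReal
open MeasureTheory Filter Set

namespace Pool.Agent.VDI

open Pool.Agent.VD
open Pool.Agent.VQ (CH KZ PS perZ cmZ)
open Pool.Agent.RPQ (IsOp)
open Pool.Agent.VDA (STP FB FR FT nY OY OA)
open Pool.Agent.VDE (FDX)

noncomputable section

theorem GWB_num (d : ℕ) (C1 C2 R : ℝ) (h1 : 1 ≤ C1) (h2 : 1 ≤ C2) (hR : 2 * C1 * C2 ≤ R) :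
    C1 * R ^ (-LX d) * C2 ≤ 1 / 2 * R ^ (-(1 / 4) : ℝ) := by
  have h12 : 1 ≤ C1 * C2 := by nlinarith
  have hR2 : 2 ≤ R := by nlinarith
  have hR0 : 0 < R := by linarith
  have hR1 : 1 ≤ R := by linarith
  have hd : (0 : ℝ) ≤ d := Nat.cast_nonneg d
  have h3 : R ^ (-LX d) ≤ R ^ (-(5 / 4) : ℝ) := by
    refine Real.rpow_le_rpow_of_exponent_le hR1 ?_
    unfold LX
    linarith
  have h4 : R ^ (-(5 / 4) : ℝ) = R⁻¹ * R ^ (-(1 / 4) : ℝ) := by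
    rw [← Real.rpow_neg_one, ← Real.rpow_add hR0]
    norm_num
  have h5 : 0 < R ^ (-(1 / 4) : ℝ) := Real.rpow_pos_of_pos hR0 _
  have h6 : C1 * C2 * R⁻¹ ≤ 1 / 2 := by
    rw [← div_eq_mul_inv, div_le_iff₀ hR0]
    linarith
  have h7 : 0 ≤ C1 * C2 := by linarith
  calc C1 * R ^ (-LX d) * C2 = C1 * C2 * R ^ (-LX d) := by ring
    _ ≤ C1 * C2 * (R⁻¹ * R ^ (-(1 / 4) : ℝ)) := by
        rw [← h4]
        exact mul_le_mul_of_nonneg_left h3 h7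
    _ = C1 * C2 * R⁻¹ * R ^ (-(1 / 4) : ℝ) := by ring
    _ ≤ 1 / 2 * R ^ (-(1 / 4) : ℝ) := mul_le_mul_of_nonneg_right h6 h5.le

theorem GWB_proof (hLPA : LPA_stmt) (hAHLD : AHLD_stmt) : GWB_stmt := by
  intro d Γ _ _ K k B b r0 hK
  obtain ⟨C1, hC1, hL⟩ := hLPA d Γ K k B b r0
  obtain ⟨C2, hC2, hA⟩ := hAHLD d Γ K k B r0 0
  have h12 : 1 ≤ C1 * C2 := by nlinarith
  refine ⟨2 * C1 * C2, by linarith, ?_⟩
  intro R G G' hR hG hN y hy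
  obtain ⟨hy1, hy2⟩ := hy
  have hR1 : 1 ≤ R := by linarith
  refine ⟨hy1, ?_⟩
  have h1 := (hL R G G' y.2.1 hR1 hG hN hy1).2.1
  have h2 := ((hA G' hK hN.cls).2.2.2.2 y.2.1 hy1).2.2 y.2.2
  have hp : R ^ (-(1 / 4) : ℝ) ≤ 1 := Real.rpow_le_one_of_one_le_of_nonpos hR1 (by norm_num)
  have h3 : ⟪IG G' y.2.1 y.2.2, y.2.2⟫_ℝ ≤ 2 := by
    have h4 := (abs_le.1 hy2).2
    unfold Ep Ham at h4
    linarith
  have h5 : ‖y.2.2‖ ^ 2 ≤ C2 * 2 := h2.1.trans (mul_le_mul_of_nonneg_left h3 (by linarith))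
  have h6 : |Ep G y.2 - Ep G' y.2| ≤ C1 * R ^ (-LX d) * C2 := by
    have h7 : Ep G y.2 - Ep G' y.2 = ⟪(IG G y.2.1 - IG G' y.2.1) y.2.2, y.2.2⟫_ℝ / 2 := by
      unfold Ep Ham
      rw [sub_apply, inner_sub_left]
      ring
    rw [h7, abs_div, abs_of_pos (by norm_num : (0 : ℝ) < 2), div_le_iff₀ (by norm_num : (0 : ℝ) < 2)]
    have h8 : 0 ≤ ‖IG G y.2.1 - IG G' y.2.1‖ := norm_nonneg _
    calc |⟪(IG G y.2.1 - IG G' y.2.1) y.2.2, y.2.2⟫_ℝ| ≤ ‖(IG G y.2.1 - IG G' y.2.1) y.2.2‖ * ‖y.2.2‖ :=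
          abs_real_inner_le_norm _ _
      _ ≤ (‖IG G y.2.1 - IG G' y.2.1‖ * ‖y.2.2‖) * ‖y.2.2‖ :=
          mul_le_mul_of_nonneg_right (ContinuousLinearMap.le_opNorm _ _) (norm_nonneg _)
      _ = ‖IG G y.2.1 - IG G' y.2.1‖ * ‖y.2.2‖ ^ 2 := by ring
      _ ≤ ‖IG G y.2.1 - IG G' y.2.1‖ * (C2 * 2) := mul_le_mul_of_nonneg_left h5 h8
      _ ≤ C1 * R ^ (-LX d) * (C2 * 2) := mul_le_mul_of_nonneg_right h1 (by linarith)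
      _ = C1 * R ^ (-LX d) * C2 * 2 := by ring
  have h9 := GWB_num d C1 C2 R hC1 hC2 hR
  have h10 : |Ep G y.2| ≤ |Ep G' y.2| + |Ep G y.2 - Ep G' y.2| := by
    have h11 : Ep G y.2 = Ep G' y.2 + (Ep G y.2 - Ep G' y.2) := by ring
    calc |Ep G y.2| = |Ep G' y.2 + (Ep G y.2 - Ep G' y.2)| := by rw [← h11]
      _ ≤ _ := abs_add_le _ _
  calc |Ep G y.2| ≤ |Ep G' y.2| + |Ep G y.2 - Ep G' y.2| := h10
    _ ≤ 1 / 2 * R ^ (-(1 / 4) : ℝ) + 1 / 2 * R ^ (-(1 / 4) : ℝ) := add_le_add hy2 (h6.trans h9)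
    _ = 1 * R ^ (-(1 / 4) : ℝ) := by ring

end

end Pool.Agent.VDI
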